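import Pool.Agent.WSF.Final2

open Finset

namespace Pool.Agent.Results.MP_b009b7_co.WeakSumFreeEightModSixteen

/-- The restricted sumset `h^A`: all sums of `h` pairwise distinct elements of `A`. -/
def hatSum {G : Type} [AddCommGroup G] (h : ℕ) (A : Finset G) : Set G :=
  {x | ∃ s ⊆ A, s.card = h ∧ ∑ y ∈ s, y = x}

/-- `A` is weakly `(k, l)`-sum-free: `k^A` and `l^A` are disjoint. -/
def IsWeaklySumFree {G : Type} [AddCommGroup G] (k l : ℕ) (A : Finset G) : Prop :=
  hatSum k A ∩ hatSum l A = ∅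

/-- `μ^(G, {k, l})`: the maximum size of a weakly `(k, l)`-sum-free subset of `G`. -/
noncomputable def muHat (G : Type) [AddCommGroup G] (k l : ℕ) : ℕ :=
  sSup {t | ∃ A : Finset G, IsWeaklySumFree k l A ∧ A.card = t}

lemma hatSum_one {G : Type} [AddCommGroup G] {A : Finset G} {x : G} :
    x ∈ hatSum 1 A ↔ x ∈ A := by
  constructor
  · rintro ⟨s, hs, hc, rfl⟩
    obtain ⟨y, rfl⟩ := card_eq_one.1 hc
    rw [sum_singleton]
    exact hs (mem_singleton_self y)
  · intro hx
    exact ⟨{x}, by simpa using hx, card_singleton x, sum_singleton _ _⟩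

lemma iff_wsf {G : Type} [AddCommGroup G] [DecidableEq G] {A : Finset G} :
    IsWeaklySumFree 3 1 A ↔ Pool.Agent.WSF.Wsf A := by
  unfold IsWeaklySumFree Pool.Agent.WSF.Wsf
  constructor
  · intro h a ha b hb c hc hab hac hbc hd
    have h1 : a + b + c ∈ hatSum 3 A ∩ hatSum 1 A := by
      refine ⟨⟨{a, b, c}, ?_, card_eq_three.2 ⟨a, b, c, hab, hac, hbc, rfl⟩, ?_⟩, hatSum_one.2 hd⟩
      · intro x hx
        simp only [mem_insert, mem_singleton] at hx
        rcases hx with rfl | rfl | rfl <;> assumption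
      · rw [sum_insert (by simp [hab, hac]), sum_pair hbc, add_assoc]
    rw [h] at h1
    exact h1
  · intro h
    rw [Set.eq_empty_iff_forall_notMem]
    rintro x ⟨⟨s, hs, hc, rfl⟩, hx⟩
    rw [hatSum_one] at hx
    obtain ⟨a, b, c, hab, hac, hbc, rfl⟩ := card_eq_three.1 hc
    rw [sum_insert (by simp [hab, hac]), sum_pair hbc, ← add_assoc] at hx
    exact h a (hs (by simp)) b (hs (by simp)) c (hs (by simp)) hab hac hbc hx

lemma muHat_eq {G : Type} [AddCommGroup G] [DecidableEq G] {t : ℕ}
    (h1 : ∃ A : Finset G, Pool.Agent.WSF.Wsf A ∧ A.card = t)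
    (h2 : ∀ A : Finset G, Pool.Agent.WSF.Wsf A → A.card ≤ t) : muHat G 3 1 = t := by
  apply IsGreatest.csSup_eq
  constructor
  · obtain ⟨A, hA, hc⟩ := h1
    exact ⟨A, iff_wsf.2 hA, hc⟩
  · rintro s ⟨A, hA, rfl⟩
    exact h2 A (iff_wsf.1 hA)

/-- Let `n ≡ 8 (mod 16)` have no prime factor congruent to `3` modulo `4`. The maximum size
`μ^(ℤ/n, {3, 1})` of a subset of `ℤ/n` in which no element is the sum of three distinct elements is
`n / 4 + 2` exactly for `n = 8`, and it is `n / 4 + 1` for all the other `n`. -/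
theorem result (n : ℕ) (hn : n % 16 = 8) (hp : ∀ p : ℕ, p.Prime → p ∣ n → p % 4 ≠ 3) :
    (muHat (ZMod n) 3 1 = n / 4 + 2 ↔ n = 8) ∧ (muHat (ZMod n) 3 1 = n / 4 + 1 ↔ n ≠ 8) := by
  by_cases h8 : n = 8
  · subst h8
    have : muHat (ZMod 8) 3 1 = 4 := by
      apply muHat_eq
      · exact ⟨{0, 1, 2, 4}, Pool.Agent.WSF.lower_eight, by decide⟩
      · intro A hA
        by_contra hcon
        push Not at hcon
        obtain ⟨B, hBA, hBc⟩ := Finset.exists_subset_card_eq (s := A) (n := 5) (by omega)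
        exact Pool.Agent.WSF.upper_eight B (mem_powersetCard.2 ⟨subset_univ _, hBc⟩)
          (Pool.Agent.WSF.wsf_mono hBA hA)
    rw [this]
    norm_num
  · obtain ⟨m, hm⟩ : ∃ m, n = 8 * m := ⟨n / 8, by omega⟩
    have hmodd : m % 2 = 1 := by omega
    have hm1 : m ≠ 1 := by omega
    haveI : NeZero n := ⟨by omega⟩
    have hdiv : ∀ d, d ∣ m → d % 4 = 1 := by
      intro d hd
      apply Pool.Agent.WSF.mod_four
      · rintro rfl
        have := Nat.eq_zero_of_zero_dvd hd
        omega
      · intro p hpp hpd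
        have hpm : p ∣ m := hpd.trans hd
        have h3 := hp p hpp (by rw [hm]; exact hpm.mul_left 8)
        have h2 : p % 2 = 1 := by
          rcases hpp.eq_two_or_odd with h | h
          · subst h
            obtain ⟨k, hk⟩ := hpm
            omega
          · exact h
        omega
    have hm4 := hdiv m dvd_rfl
    have : muHat (ZMod n) 3 1 = 2 * m + 1 := by
      apply muHat_eq (Pool.Agent.WSF.lower_zmod hm)
      intro A hA
      exact Pool.Agent.WSF.upper_zmod hm (by omega) hdiv hA
    rw [this]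
    constructor
    · constructor
      · intro h; omega
      · intro h; exact absurd h h8
    · constructor
      · intro _; exact h8
      · intro _; omega

end Pool.Agent.Results.MP_b009b7_co.WeakSumFreeEightModSixteen
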